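import Pool.Agent.X245.GEN.Four

/-!
# Reductions to satisfiable 2-to-1 games do not lower the average sensitivity

The conjecture asks for polynomial-time reductions of all languages in `NP` to `Gap_q(1, δ)` for
2-to-1 games. Here it is proved, for every language `f` (a set of strings of `N` bits), that the bits
of the constraints that a reduction of `f` to this problem computes (or to the easier target with
completeness `1 - ε`, `ε + δ < 1`) are about as sensitive, on the average, as `f` itself: if each
constraint is encoded by `b` bits, in an arbitrary way, and if each of these bits has average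
sensitivity at most `σ`, then `(1 - ε - δ) κ (I(f) - 2 η N) ≤ b σ`, where `I(f)` is the average
sensitivity of `f`, `η` is the fraction of the pairs of an input and a random choice for which the
reduction fails, and at least a fraction `κ` of the entries of the lists is not empty. Every language
reduces with `b = 1`, `σ = I(f)` and perfect completeness to soundness `1 / q`, so that the bound is
optimal up to the factor `1 - δ`.

In particular, a language that reduces by circuits of depth `h` and size `S` has average sensitivity
`O(b (24 log₂ (2 (h S N + 1))) ^ (h + 1))`, and a language that reduces by formulas with at most `S`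
literals has average sensitivity at most `b √S / (1 - ε - δ)`. This is best possible for parity, which
has average sensitivity `N` and reduces by formulas with at most `4 N²` literals.

A reduction maps an input `x` with `N` bits to a list of edges with constraints, indexed by `R`
(`Y x r`, where `none` is an empty entry). `Right Sat ε δ p y`
(`Pool/Agent/X245/GEN/Core.lean`) says that the list `y` is not empty and that its value is at least
`1 - ε` if `p` is true, and at most `δ` if `p` is false.

The proof: if `x` is mapped to a yes instance and `x'` to a no instance then at least the fraction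
`1 - ε - δ` of the entries of one of them is not in the other. For (2) the switching lemma is used:
under a random restriction all bits computed by a circuit of small depth become decision trees of
small depth. For formulas the bound of Khrapchenko shows that the average sensitivity is at most the
square root of the size.
-/

set_option autoImplicit false

namespace Pool.Agent.Results.MP_ec946a_lc.ConstantDepthReductions

open Finset DomAC0 Pool.Agent.X246.ACR Pool.Agent.X245.GEN

open scoped Classical

/-- An edge `(u, v)` of a 2-to-1 game with the label set `[q]`, and its map `[q] → [q]`, whose fibres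
have at most two elements. -/
abbrev Edge (U V : Type) (q : ℕ) : Type :=
  U × V × {π : Fin q → Fin q // ∀ b, (univ.filter fun a => π a = b).card ≤ 2}

/-- The labeling `l` satisfies the constraint: the map takes the label of `u` to that of `v`. -/
def Sat {U V : Type} {q : ℕ} (l : (U → Fin q) × (V → Fin q)) (e : Edge U V q) : Prop :=
  e.2.2.1 (l.1 e.1) = l.2 e.2.1

/-- The list whose entry `r` is decoded by `dec r` from the values of the functions `F r j`. -/
def list {N b q : ℕ} {R U V : Type} (F : R → Fin b → (Fin N → Bool) → Bool)
    (dec : R → (Fin b → Bool) → Option (Edge U V q)) (x : Fin N → Bool) (r : R) :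
    Option (Edge U V q) := dec r fun j => F r j x

/-- At least the fraction `κ` of the entries of the list is not empty. -/
def Long {R K : Type} [Fintype R] (κ : ℝ) (y : R → Option K) : Prop :=
  κ * Fintype.card R ≤ ((univ.filter fun r => y r ≠ none).card : ℝ)

/-- The language of the strings with an odd number of ones. -/
noncomputable def parity {N : ℕ} (x : Fin N → Bool) : Bool :=
  decide (Odd (univ.filter fun i => x i = true).card)

theorem fiber_le {q : ℕ} (σ : Equiv.Perm (Fin q)) (b : Fin q) :
    (univ.filter fun a => σ a = b).card ≤ 2 := by
  refine le_trans (card_le_one.2 fun a ha a' ha' => ?_) (by norm_num)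
  rw [mem_filter] at ha ha'
  exact σ.injective (ha.2.trans ha'.2.symm)

/-- the edge whose constraint is a permutation -/
def perm {q : ℕ} (σ : Equiv.Perm (Fin q)) : Edge Unit Unit q := ((), (), ⟨σ, fiber_le σ⟩)

/-- the constraint `r` of the list for the upper bound: the identity, or a shift by `r` -/
def entry {q : ℕ} [NeZero q] (r : Fin q) (u : Fin 1 → Bool) : Option (Edge Unit Unit q) :=
  some (perm (if u 0 = true then 1 else Equiv.addRight r))

theorem entry_right {N q : ℕ} [NeZero q] (f : (Fin N → Bool) → Bool) (x : Fin N → Bool) :
    Right Sat 0 (1 / q) (f x) (list (fun (_ : Fin q) (_ : Fin 1) => f) entry x) := by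
  have hq : (0 : ℝ) < q := by exact_mod_cast Nat.pos_of_ne_zero (NeZero.ne q)
  have h0 : total (list (fun (_ : Fin q) (_ : Fin 1) => f) entry x) = q := by
    unfold total
    rw [filter_true_of_mem fun r _ => by simp [list, entry], card_univ, Fintype.card_fin]
  refine ⟨?_, ?_, ?_⟩
  · rw [h0]
    exact Nat.pos_of_ne_zero (NeZero.ne q)
  · intro hp
    refine ⟨(fun _ => 0, fun _ => 0), ?_⟩
    have h1 : good Sat (list (fun (_ : Fin q) (_ : Fin 1) => f) entry x)
        (fun _ => 0, fun _ => 0) = q := by
      unfold good
      rw [filter_true_of_mem ?_, card_univ, Fintype.card_fin]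
      intro r _
      refine ⟨_, rfl, ?_⟩
      unfold Sat
      show (if f x = true then (1 : Equiv.Perm (Fin q)) else Equiv.addRight r) 0 = 0
      rw [if_pos hp]
      rfl
    rw [h0, h1]
    simp
  · intro hp l
    have hf : ¬ f x = true := by
      rw [hp]
      decide
    have h1 : good Sat (list (fun (_ : Fin q) (_ : Fin 1) => f) entry x) l ≤ 1 := by
      unfold good
      rw [card_le_one]
      intro r hr s hs
      simp only [mem_filter, mem_univ, true_and] at hr hs
      obtain ⟨k, hk, hk2⟩ := hr
      obtain ⟨m, hm, hm2⟩ := hs
      have h2 : k = perm (Equiv.addRight r) := by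
        have := Option.some_injective _ hk
        rw [← this, if_neg hf]
      have h3 : m = perm (Equiv.addRight s) := by
        have := Option.some_injective _ hm
        rw [← this, if_neg hf]
      rw [h2] at hk2
      rw [h3] at hm2
      have h4 : l.1 () + r = l.2 () := hk2
      have h5 : l.1 () + s = l.2 () := hm2
      exact add_left_cancel (h4.trans h5.symm)
    rw [h0]
    have h2 : (good Sat (list (fun (_ : Fin q) (_ : Fin 1) => f) entry x) l : ℝ) ≤ 1 := by
      exact_mod_cast h1
    rw [one_div_mul_cancel hq.ne']
    exact h2

theorem parity_avgSens (N : ℕ) : avgSens (parity (N := N)) = N := by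
  unfold avgSens
  have h1 : ∀ x : Fin N → Bool, (univ.filter fun i =>
      parity (Function.update x i (!x i)) ≠ parity x) = univ := by
    intro x
    refine filter_true_of_mem fun i _ => ?_
    unfold parity
    intro h
    rw [decide_eq_decide] at h
    have h2 : Odd (univ.filter fun j => Function.update x i (!x i) j = true).card ↔
        ¬ Odd (univ.filter fun j => x j = true).card :=
      Pool.Agent.Y601.SSE.odd_flip i x
    tauto
  simp_rw [h1]
  rw [sum_const, card_univ, card_univ, Fintype.card_fun, Fintype.card_bool, Fintype.card_fin,
    nsmul_eq_mul]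
  push_cast
  field_simp

/-- Let `f` be any language.

(1) Suppose that the list, each entry of which is decoded from `b` bits, is right for at least a
fraction `1 - η` of all pairs of an input `x` and a random choice `ω`: it has value at least `1 - ε`
for members of `f` and at most `δ` for the other inputs, and at least a fraction `κ` of its entries is
not empty. If each bit has average sensitivity at most `σ` then
`(1 - ε - δ) κ (avgSens f - 2 η N) ≤ b σ`.

(2) If each list is computed by one circuit with at most `S` gates, the bits at depth at most `h`, and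
is right with the exception of `κ` (an arbitrary part of the entries may be empty), then
`(1 - ε - δ) (avgSens f - 2 η N) ≤ b (24 log₂ (2 (h S N + 1))) ^ (h + 1)`.

(3) The value of a node of depth at most `h` of a circuit with at most `S` gates has average
sensitivity at most `(24 log₂ (2 (h S N + 1))) ^ (h + 1)`, and a formula with `S` literals has average
sensitivity at most `√S`.

(4) Conversely, there is a list of `q` entries, all nonempty and decoded from the one bit `f x`, with
value `1` for the members of `f` and at most `1 / q` for the other inputs.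

(5) Parity has average sensitivity `N` and a formula with at most `4 N ^ 2` literals. -/
theorem result :
    (∀ (N b q : ℕ) (Ω R U V : Type) [Fintype Ω] [Nonempty Ω] [Fintype R] (ε δ κ η σ : ℝ)
      (f : (Fin N → Bool) → Bool) (F : Ω → R → Fin b → (Fin N → Bool) → Bool)
      (dec : Ω → R → (Fin b → Bool) → Option (Edge U V q)),
      0 ≤ ε → 0 ≤ δ → ε + δ < 1 → 0 ≤ κ → η < 1 → (∀ ω r j, avgSens (F ω r j) ≤ σ) →
      (1 - η) * (2 ^ N * Fintype.card Ω) ≤ ((univ.filter fun p : Ω × (Fin N → Bool) =>
        Right Sat ε δ (f p.2) (list (F p.1) (dec p.1) p.2) ∧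
          Long κ (list (F p.1) (dec p.1) p.2)).card : ℝ) →
      (1 - ε - δ) * κ * (avgSens f - 2 * η * N) ≤ b * σ) ∧
    (∀ (N b q h S : ℕ) (Ω R U V : Type) [Fintype Ω] [Nonempty Ω] [Fintype R] (ε δ η : ℝ)
      (f : (Fin N → Bool) → Bool) (C : Ω → Circuit (Fin N))
      (out : ∀ ω, R → Fin b → Fin N ⊕ Fin (C ω).size)
      (dec : Ω → R → (Fin b → Bool) → Option (Edge U V q)),
      1 ≤ b → (∀ ω, (C ω).size ≤ S) → (∀ ω r j, (C ω).nodeDepth (out ω r j) ≤ h) →
      0 ≤ ε → 0 ≤ δ → ε + δ < 1 →
      (1 - η) * (2 ^ N * Fintype.card Ω) ≤ ((univ.filter fun p : Ω × (Fin N → Bool) =>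
        Right Sat ε δ (f p.2) (inst (C p.1) (out p.1) (dec p.1) p.2)).card : ℝ) →
      (1 - ε - δ) * (avgSens f - 2 * η * N) ≤
        b * (24 * Real.logb 2 (2 * (h * S * N + 1))) ^ (h + 1)) ∧
    ((∀ (N h S : ℕ) (C : Circuit (Fin N)) (v : Fin N ⊕ Fin C.size), C.nodeDepth v ≤ h →
        C.size ≤ S →
        avgSens (fun x => C.nodeVal x v) ≤ (24 * Real.logb 2 (2 * (h * S * N + 1))) ^ (h + 1)) ∧
      ∀ (N : ℕ) (F : DeMorgan (Fin N)), avgSens (fun x => F.eval x) ≤ √F.size) ∧
    (∀ (N q : ℕ) (f : (Fin N → Bool) → Bool), 1 ≤ q →
      ∃ dec : Fin q → (Fin 1 → Bool) → Option (Edge Unit Unit q),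
        ∀ x, Right Sat 0 (1 / q) (f x) (list (fun _ _ => f) dec x) ∧
          Long 1 (list (fun _ _ => f) dec x)) ∧
    (∀ N : ℕ, avgSens (parity (N := N)) = N ∧
      ∃ F : DeMorgan (Fin N), F.size ≤ 4 * N ^ 2 ∧ ∀ x, F.eval x = parity x) := by
  refine ⟨?_, ?_, ⟨?_, ?_⟩, ?_, ?_⟩
  · intro N b q Ω R U V _ _ _ ε δ κ η σ f F dec hε hδ hεδ hκ hη hσ hA
    exact bits_most (sat := Sat) hε hδ hεδ hκ hη f F dec hσ (by
      convert hA
      · rfl
      · exact Iff.rfl)
  · intro N b q h S Ω R U V _ _ _ ε δ η f C out dec hb hS hh hε hδ hεδ hA
    exact ac0_most (sat := Sat) hε hδ hεδ f C hb out dec h S hh hS (by convert hA)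
  · intro N h S C v hv hS
    exact ac0_avgSens C v h S hv hS
  · intro N F
    exact form_avgSens F
  · intro N q f hq
    have : NeZero q := ⟨by omega⟩
    refine ⟨entry, fun x => ⟨entry_right f x, ?_⟩⟩
    unfold Long
    rw [filter_true_of_mem fun r _ => by simp [list, entry], card_univ, one_mul]
  · intro N
    refine ⟨parity_avgSens N, ?_⟩
    obtain ⟨F, hF, hF'⟩ := Pool.Agent.X245.PFM.parity_formula N
    refine ⟨F, hF, fun x => ?_⟩
    unfold parity
    rw [Bool.eq_iff_iff, decide_eq_true_iff]
    exact hF' x

end Pool.Agent.Results.MP_ec946a_lc.ConstantDepthReductions
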