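import Pool.Agent.X245.GEN.Neg

/-!
# Negations in reductions to satisfiable 2-to-1 games: Markov's theorem for gap reductions

The conjecture asks for polynomial-time reductions of all languages in `NP` to `Gap_q(1, δ)`. By
Markov's theorem the least number of NOT gates of a circuit (of any size) that decides a language on
the inputs with `N` bits is about `log₂ a`, where `a` is the maximal number of changes of the answer
along an increasing chain of inputs. A reduction to a gap problem need not decide anything: the
`b` bits that encode a constraint can be computed by different circuits, and each of them may have its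
own NOT gates. Here it is proved that nothing is gained, for every language `f`: if each bit of a
reduction of `f` to 2-to-1 games (value at least `1 - ε` for the members, at most `δ` for the others)
is computed by a circuit with `t` NOT gates then `(1 - ε - δ) κ (1 - 2 η) a ≤ b (2 ^ (t + 1) - 1)`,
also for randomised reductions with error probability `η`; and conversely `a ≤ 2 ^ (t + 1) - 1` is
enough for a reduction with `b = 1`, perfect completeness and soundness `1 / q`. For reductions that
are only correct for most inputs the average sensitivity of `f` takes the place of `a`.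

A reduction maps an input `x` with `N` bits to a list of edges with constraints, indexed by `R`
(`Y x r`, where `none` is an empty entry). `Right Sat ε δ p y`
(`Pool/Agent/X245/GEN/Core.lean`) says that the list `y` is not empty and that its value is at least
`1 - ε` if `p` is true, and at most `δ` if `p` is false. `changes f z m` is the number of the `j < m`
with `f (z (j + 1)) ≠ f (z j)`. `NegComp t f`
(`Pool/Agent/X246/ACR/NegMain.lean`, `Circ` in `Pool/Agent/X246/ACR/Neg.lean`) says that `f` is
computed at a gate of a circuit with `t` NOT gates, in which every other gate computes an arbitrary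
monotone function of the inputs and of the results of all earlier gates.

The proof of the lower bounds: by an argument of Markov a function that is computed with `t` NOT gates
is a function of `2 ^ (t + 1) - 1` monotone functions. So it changes at most `2 ^ (t + 1) - 1` times
along a chain, and its average sensitivity is at most `(2 ^ (t + 1) - 1) √N`. But a fraction
`1 - ε - δ` of the entries must change whenever a yes instance becomes a no instance.
-/

set_option autoImplicit false

namespace Pool.Agent.Results.MP_ec946a_lc.NegationsInReductions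

open Finset Pool.Agent.X246.ACR Pool.Agent.X245.GEN

open scoped Classical

/-- An edge `(u, v)` of a 2-to-1 game with the label set `[q]`, and its map `[q] → [q]`, whose fibres
have at most two elements. -/
abbrev Edge (U V : Type) (q : ℕ) : Type :=
  U × V × {π : Fin q → Fin q // ∀ b, (univ.filter fun a => π a = b).card ≤ 2}

/-- The labeling `l` satisfies the constraint: the map takes the label of `u` to that of `v`. -/
def Sat {U V : Type} {q : ℕ} (l : (U → Fin q) × (V → Fin q)) (e : Edge U V q) : Prop :=
  e.2.2.1 (l.1 e.1) = l.2 e.2.1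

theorem fiber_le {q : ℕ} (σ : Equiv.Perm (Fin q)) (b : Fin q) :
    (univ.filter fun a => σ a = b).card ≤ 2 := by
  refine le_trans (card_le_one.2 fun a ha a' ha' => ?_) (by norm_num)
  rw [mem_filter] at ha ha'
  exact σ.injective (ha.2.trans ha'.2.symm)

/-- the edge whose constraint is a permutation -/
def perm {q : ℕ} (σ : Equiv.Perm (Fin q)) : Edge Unit Unit q := ((), (), ⟨σ, fiber_le σ⟩)

/-- The list whose entry `r` is decoded by `dec r` from the values of the functions `F r j`. -/
def list {N b q : ℕ} {R U V : Type} (F : R → Fin b → (Fin N → Bool) → Bool)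
    (dec : R → (Fin b → Bool) → Option (Edge U V q)) (x : Fin N → Bool) (r : R) :
    Option (Edge U V q) := dec r fun j => F r j x

/-- At least the fraction `κ` of the entries of the list is not empty. -/
def Long {R K : Type} [Fintype R] (κ : ℝ) (y : R → Option K) : Prop :=
  κ * Fintype.card R ≤ ((univ.filter fun r => y r ≠ none).card : ℝ)

/-- the constraint `r` of the list for the upper bounds: the identity, or a shift by `r` -/
def entry {q : ℕ} [NeZero q] (c : Bool) (r : Fin q) (u : Fin 1 → Bool) :
    Option (Edge Unit Unit q) :=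
  some (perm (if u 0 = c then 1 else Equiv.addRight r))

theorem entry_right {N q : ℕ} [NeZero q] (δ : ℝ) (hδ : 1 / q ≤ δ) (g : (Fin N → Bool) → Bool)
    (c p : Bool) (x : Fin N → Bool) (hx : g x = c ↔ p = true) :
    Right Sat 0 δ p (list (fun (_ : Fin q) (_ : Fin 1) => g) (entry c) x) := by
  have hq : (0 : ℝ) < q := by exact_mod_cast Nat.pos_of_ne_zero (NeZero.ne q)
  have h0 : total (list (fun (_ : Fin q) (_ : Fin 1) => g) (entry c) x) = q := by
    unfold total
    rw [filter_true_of_mem fun r _ => by simp [list, entry], card_univ, Fintype.card_fin]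
  refine ⟨?_, ?_, ?_⟩
  · rw [h0]
    exact Nat.pos_of_ne_zero (NeZero.ne q)
  · intro hp
    refine ⟨(fun _ => 0, fun _ => 0), ?_⟩
    have hf : g x = c := hx.2 hp
    have h1 : good Sat (list (fun (_ : Fin q) (_ : Fin 1) => g) (entry c) x)
        (fun _ => 0, fun _ => 0) = q := by
      unfold good
      rw [filter_true_of_mem ?_, card_univ, Fintype.card_fin]
      intro r _
      refine ⟨_, rfl, ?_⟩
      unfold Sat
      show (if g x = c then (1 : Equiv.Perm (Fin q)) else Equiv.addRight r) 0 = 0
      rw [if_pos hf]
      rfl
    rw [h0, h1]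
    simp
  · intro hp l
    have hf : ¬ g x = c := fun h => by
      rw [hx.1 h] at hp
      exact absurd hp (by decide)
    have h1 : good Sat (list (fun (_ : Fin q) (_ : Fin 1) => g) (entry c) x) l ≤ 1 := by
      unfold good
      rw [card_le_one]
      intro r hr s hs
      simp only [mem_filter, mem_univ, true_and] at hr hs
      obtain ⟨k, hk, hk2⟩ := hr
      obtain ⟨m, hm, hm2⟩ := hs
      have h2 : k = perm (Equiv.addRight r) := by
        have := Option.some_injective _ hk
        rw [← this, if_neg hf]
      have h3 : m = perm (Equiv.addRight s) := by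
        have := Option.some_injective _ hm
        rw [← this, if_neg hf]
      rw [h2] at hk2
      rw [h3] at hm2
      have h4 : l.1 () + r = l.2 () := hk2
      have h5 : l.1 () + s = l.2 () := hm2
      exact add_left_cancel (h4.trans h5.symm)
    rw [h0]
    have h2 : (good Sat (list (fun (_ : Fin q) (_ : Fin 1) => g) (entry c) x) l : ℝ) ≤ 1 := by
      exact_mod_cast h1
    have h3 : 1 / q * (q : ℝ) ≤ δ * q := mul_le_mul_of_nonneg_right hδ hq.le
    rw [one_div_mul_cancel hq.ne'] at h3
    linarith

/-- The language of the strings with evenly many ones. -/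
noncomputable def even {N : ℕ} (x : Fin N → Bool) : Bool := decide (¬ Odd (ones x))

theorem even_stair (N : ℕ) : changes (even (N := N)) (stair N) N = N := by
  unfold changes
  rw [filter_true_of_mem, card_range]
  intro j hj
  rw [mem_range] at hj
  have h1 : ones (stair N j) = j := stair_ones N j hj.le
  have h2 : ones (stair N (j + 1)) = j + 1 := stair_ones N (j + 1) hj
  unfold even
  rw [h1, h2]
  intro h
  rw [decide_eq_decide, Nat.odd_add_one, not_not] at h
  tauto

theorem even_avgSens (N : ℕ) : avgSens (even (N := N)) = N := by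
  unfold avgSens
  have h1 : ∀ x : Fin N → Bool, (univ.filter fun i =>
      even (Function.update x i (!x i)) ≠ even x) = univ := by
    intro x
    refine filter_true_of_mem fun i _ => ?_
    unfold even
    intro h
    rw [decide_eq_decide, not_iff_not] at h
    have h2 : Odd (ones (Function.update x i (!x i))) ↔ ¬ Odd (ones x) :=
      Pool.Agent.Y601.SSE.odd_flip i x
    tauto
  simp_rw [h1]
  rw [sum_const, card_univ, card_univ, Fintype.card_fun, Fintype.card_bool, Fintype.card_fin,
    nsmul_eq_mul]
  push_cast
  field_simp

/-- Let `f` be any language.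

(1) Let `z 0 ≤ z 1 ≤ ... ≤ z m` be inputs, and suppose that for each of them the list, each entry of
which is encoded by `b` bits that are computed by circuits with `t` NOT gates (one for each bit), is
right with probability at least `1 - η` (over the random choices `ω`): it has value at least `1 - ε`
for members of `f` and at most `δ` for the other inputs, and at least a fraction `κ` of its entries is
not empty. Then the answer changes at most `b (2 ^ (t + 1) - 1) / ((1 - ε - δ) κ (1 - 2 η))` times
along the chain.

(2) If this holds for at least a fraction `1 - η` of all pairs of an input `x` and a random choice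
`ω` then `(1 - ε - δ) κ (avgSens f - 2 η N) ≤ b (2 ^ (t + 1) - 1) √N`.

(3) Conversely, if the answer changes at most `2 ^ (t + 1) - 1` times along every chain and
`δ ≥ 1 / q` then for `b = 1` and `ε = 0` there is a reduction that is correct for all inputs.

(4) Parity: `N` changes, average sensitivity `N`; and if `N ≤ (1 / 2 - γ) (2 ^ (t + 1) - 2) ^ 2` and
`δ ≥ 1 / q` then for `b = 1` and `ε = 0` there is a reduction that is correct for a fraction
`1 / 2 + γ` of all inputs. -/
theorem result :
    (∀ (N b t q m : ℕ) (Ω R U V : Type) [Fintype Ω] [Nonempty Ω] [Fintype R] (ε δ κ η : ℝ)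
      (f : (Fin N → Bool) → Bool) (F : Ω → R → Fin b → (Fin N → Bool) → Bool)
      (dec : Ω → R → (Fin b → Bool) → Option (Edge U V q)) (z : ℕ → Fin N → Bool),
      (∀ ω r j, NegComp t (F ω r j)) → 0 ≤ ε → 0 ≤ δ → ε + δ < 1 → 0 ≤ κ → Monotone z →
      (∀ j ≤ m, (1 - η) * Fintype.card Ω ≤ ((univ.filter fun ω =>
        Right Sat ε δ (f (z j)) (list (F ω) (dec ω) (z j)) ∧
          Long κ (list (F ω) (dec ω) (z j))).card : ℝ)) →
      (1 - ε - δ) * κ * (1 - 2 * η) * changes f z m ≤ b * (2 ^ (t + 1) - 1)) ∧
    (∀ (N b t q : ℕ) (Ω R U V : Type) [Fintype Ω] [Nonempty Ω] [Fintype R] (ε δ κ η : ℝ)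
      (f : (Fin N → Bool) → Bool) (F : Ω → R → Fin b → (Fin N → Bool) → Bool)
      (dec : Ω → R → (Fin b → Bool) → Option (Edge U V q)),
      (∀ ω r j, NegComp t (F ω r j)) → 0 ≤ ε → 0 ≤ δ → ε + δ < 1 → 0 ≤ κ → η < 1 →
      (1 - η) * (2 ^ N * Fintype.card Ω) ≤ ((univ.filter fun p : Ω × (Fin N → Bool) =>
        Right Sat ε δ (f p.2) (list (F p.1) (dec p.1) p.2) ∧
          Long κ (list (F p.1) (dec p.1) p.2)).card : ℝ) →
      (1 - ε - δ) * κ * (avgSens f - 2 * η * N) ≤ b * (2 ^ (t + 1) - 1) * √N) ∧
    (∀ (N t q : ℕ) (δ : ℝ) (f : (Fin N → Bool) → Bool), 1 ≤ q → 1 / q ≤ δ →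
      (∀ z : ℕ → Fin N → Bool, Monotone z → ∀ m, changes f z m ≤ 2 ^ (t + 1) - 1) →
      ∃ (F : Fin q → Fin 1 → (Fin N → Bool) → Bool)
        (dec : Fin q → (Fin 1 → Bool) → Option (Edge Unit Unit q)),
        (∀ r j, NegComp t (F r j)) ∧
        ∀ x, Right Sat 0 δ (f x) (list F dec x) ∧ Long 1 (list F dec x)) ∧
    (∀ N : ℕ, changes (even (N := N)) (stair N) N = N ∧ avgSens (even (N := N)) = N ∧
      ∀ (t q : ℕ) (δ γ : ℝ), γ ≤ 1 / 2 → N ≤ (1 / 2 - γ) * (2 ^ (t + 1) - 2) ^ 2 → 1 ≤ q →
      1 / q ≤ δ →
      ∃ (F : Fin q → Fin 1 → (Fin N → Bool) → Bool)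
        (dec : Fin q → (Fin 1 → Bool) → Option (Edge Unit Unit q)),
        (∀ r j, NegComp t (F r j)) ∧
        (1 / 2 + γ) * 2 ^ N ≤ ((univ.filter fun x =>
          Right Sat 0 δ (even x) (list F dec x) ∧ Long 1 (list F dec x)).card : ℝ)) := by
  have hlong : ∀ {N q : ℕ} [NeZero q] (g : (Fin N → Bool) → Bool) (c : Bool) (x : Fin N → Bool),
      Long 1 (list (fun (_ : Fin q) (_ : Fin 1) => g) (entry c) x) := by
    intro N q _ g c x
    unfold Long
    rw [filter_true_of_mem fun r _ => by simp [list, entry], card_univ, one_mul]
  refine ⟨?_, ?_, ?_, ?_⟩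
  · intro N b t q m Ω R U V _ _ _ ε δ κ η f F dec z hF hε hδ hεδ hκ hz hA
    refine neg_chain_rand (sat := Sat) hε hδ hεδ hκ F hF dec f z hz m
      (fun ω x => Right Sat ε δ (f x) (list (F ω) (dec ω) x) ∧ Long κ (list (F ω) (dec ω) x))
      (fun ω x h => ⟨h.1, ?_⟩) (fun j hj => ?_)
    · exact h.2
    · convert hA j hj
  · intro N b t q Ω R U V _ _ _ ε δ κ η f F dec hF hε hδ hεδ hκ hη hA
    obtain ⟨ω, hω⟩ := exists_index (fun ω x => Right Sat ε δ (f x) (list (F ω) (dec ω) x) ∧
      Long κ (list (F ω) (dec ω) x)) (1 / 2 - η) (by
        rw [show 1 / 2 + (1 / 2 - η) = 1 - η by ring]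
        convert hA)
    rw [show 1 / 2 + (1 / 2 - η) = 1 - η by ring] at hω
    have hω' : (1 - η) * 2 ^ N ≤ ((univ.filter fun x => Right Sat ε δ (f x)
        (list (F ω) (dec ω) x) ∧ Long κ (list (F ω) (dec ω) x)).card : ℝ) := by
      convert hω
    have hR : 0 < Fintype.card R := by
      have h1 : (0 : ℝ) < (1 - η) * 2 ^ N := mul_pos (by linarith) (by positivity)
      have h3 := Nat.cast_pos.1 (h1.trans_le hω')
      obtain ⟨x, hx⟩ := card_pos.1 h3
      have h4 := (mem_filter.1 hx).2.1.1
      unfold total at h4
      exact lt_of_lt_of_le Nat.one_pos (h4.trans (card_le_univ _))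
    refine neg_mean (sat := Sat) hε hδ hεδ hκ (F ω) (hF ω) (dec ω) f hR (hω'.trans (le_of_eq ?_))
    congr 2
  · intro N t q δ f hq hδ hf
    have : NeZero q := ⟨by omega⟩
    refine ⟨fun _ _ x => xor (f x) (f fun _ => false), entry (!(f fun _ => false)),
      fun _ _ => markov t f hf, fun x => ⟨?_, hlong _ _ x⟩⟩
    refine entry_right δ hδ _ _ _ x ?_
    cases f x <;> cases (f fun _ => false) <;> simp
  · intro N
    refine ⟨even_stair N, even_avgSens N, ?_⟩
    intro t q δ γ hγ hN hq hδ
    have : NeZero q := ⟨by omega⟩
    obtain ⟨g, hg, H⟩ := most t γ hγ hN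
    refine ⟨fun _ _ => g, entry false, fun _ _ => hg, H.trans ?_⟩
    have : (univ.filter fun x : Fin N → Bool => (g x = true ↔ Odd (ones x))).card ≤
        (univ.filter fun x => Right Sat 0 δ (even x)
          (list (fun (_ : Fin q) (_ : Fin 1) => g) (entry false) x) ∧
          Long 1 (list (fun (_ : Fin q) (_ : Fin 1) => g) (entry false) x)).card := by
      refine card_le_card fun x hx => ?_
      rw [mem_filter] at hx ⊢
      refine ⟨mem_univ _, entry_right δ hδ g false _ x ?_, hlong g false x⟩
      have h2 := hx.2
      unfold even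
      rw [decide_eq_true_iff, ← h2]
      cases g x <;> simp
    exact_mod_cast this

end Pool.Agent.Results.MP_ec946a_lc.NegationsInReductions
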