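import Pool.Agent.X240.SH.GapC
import Pool.Agent.X240.SH.GapFree

/-!
# Reductions to 2-to-1 games which produce a gap are slow

The conjecture asks for polynomial-time reductions from all problems in `NP` to `Gap_q(1, δ)` for
2-to-1 games. Here the source is the set of the directed graphs with `V` vertices, given by their
adjacency matrices as words of `n = V ^ 2` bits, which have an odd number of cycles of length two, and
a reduction is computed by a nonuniform transducer with `k` two-way heads, which move by at most one
position in a step, and at most `2 ^ S` configurations; in every step it may write any number of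
constraints, with vertices in any sets.  The reduction may be randomized: for every graph the output of
the first `T` steps is right with probability at least `2 / 3`.

(1) If the reduction is to `Gap_q(1, δ)`, or even to the problem with completeness `1 - ε`, then
`(1 - ε - δ) ^ 2 V ^ 6 ≤ 1.8 * 10 ^ 9 k (S + 1) (k T + V ^ 2) ^ 2`. So for a bounded number of heads and
a constant gap `T ≥ c V ^ 3 / sqrt (S + 1)`, which is `n ^ (3 / 2 - o(1))` for `S = n ^ o(1)`.

(2) Without a gap one head, one state and one sweep over the input are enough: there is a transducer
with one head and one state which writes in `V ^ 2` steps, at most `6` constraints in each, a 2-to-1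
game with alphabet size `4` whose value is `1` if and only if the number of the cycles is odd.

Proof of (1). The upper right and the lower left quarter of the matrix are filled with bits `x i c`, row
by row, and `y i c`, column by column, so that the answer is their inner product modulo two. Divide the
input into zones and the time into windows. For most zones `b` of the second part the transcript of
`b` (the configurations at the beginning and at the end of the windows in which `b` is visited) is
short, and only a small fraction of the constraints is written in these windows. The inputs with the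
same transcript of `b` form, for the bits of `b` and of the zones which are not visited in these
windows, a rectangle, and the constraints which are written outside of the windows are functions of the
first matrix only. As a yes instance and a no instance differ in a constant fraction of the
constraints, the answer is for most inputs a function of the first matrix only, which contradicts the
lemma of Lindsey (`Pool.Agent.X240.SH.GapE`, `GapE2`, `GapM`, `GapC`).
-/

set_option autoImplicit false

namespace Pool.Agent.Results.MP_ec946a_lc.SlowHeadReductions

open Finset Pool.Agent.X240.SH Pool.Agent.X240.SH.GapFree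

/-- An edge `(u, v)` of a 2-to-1 game with the label set `[q]`, and its map `[q] → [q]`. -/
abbrev Edge (U W : Type) (q : ℕ) : Type :=
  U × W × {π : Fin q → Fin q // ∀ b, (univ.filter fun a => π a = b).card ≤ 2}

/-- The labeling `l` satisfies the constraint. -/
def Sat {U W : Type} {q : ℕ} (l : (U → Fin q) × (W → Fin q)) (e : Edge U W q) : Prop :=
  e.2.2.1 (l.1 e.1) = l.2 e.2.1

/-- the map of a constraint -/
def mp (φ : Bool → Bool) (x : Fin 4) : Fin 4 :=
  if xor (decide ((x : ℕ) % 2 = 1)) (φ (decide ((x : ℕ) / 2 = 1))) = true then 1 else 0

theorem mp_fiber : ∀ (φ : Bool → Bool) (b : Fin 4), (univ.filter fun a => mp φ a = b).card ≤ 2 := by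
  decide

/-- the edge of a constraint -/
def edge {N : ℕ} (c : Con N) : Edge (Fin (N + 1)) (Bool × Fin (N + 1)) 4 :=
  (c.2.1, c.1, ⟨mp c.2.2, mp_fiber c.2.2⟩)

/-- the label of a pair of bits -/
def code (s b : Bool) : Fin 4 := ⟨(if s then 1 else 0) + (if b then 2 else 0), by
  cases s <;> cases b <;> decide⟩

theorem mp_code : ∀ (s b : Bool) (φ : Bool → Bool),
    mp φ (code s b) = if xor s (φ b) = true then 1 else 0 := by
  decide

theorem decide_mp : ∀ (φ : Bool → Bool) (x : Fin 4), decide (mp φ x = 1) =
    xor (decide ((x : ℕ) % 2 = 1)) (φ (decide ((x : ℕ) / 2 = 1))) := by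
  decide

/-- (1) Let `p`, `R` be a random transducer with `k ≥ 1` two-way heads for words of `V ^ 2` bits and
with at most `2 ^ S` configurations. If for all directed graphs `a` with `V ≥ 2` vertices the output of
the first `T` steps is with probability at least `2 / 3` a nonempty list of 2-to-1 constraints whose
value is at least `1 - ε` (if `a` has an odd number of cycles of length two) or at most `δ` (otherwise),
`ε + δ < 1`, then `(1 - ε - δ) ^ 2 * V ^ 6 ≤ 1800000000 * k * (S + 1) * (k * T + V ^ 2) ^ 2`.

(2) There is a transducer with one head and one state which writes in `V ^ 2` steps, at most `6`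
constraints in each step, a 2-to-1 game with alphabet size `4` and at most `2 * V ^ 2 + 2`, `V ^ 2 + 1`
vertices whose value is `1` if the number of the cycles is odd and less than `1` otherwise. -/
theorem result :
    (∀ (V k T S q : ℕ) (U W Ω : Type) [Fintype Ω] (ε δ : ℝ) (p : Ω → ℝ)
      (R : Ω → Transducer Bool (Edge U W q) (V * V) k),
      (∀ ω, 0 ≤ p ω) → ∑ ω, p ω = 1 → 2 ≤ V → 1 ≤ k → 0 ≤ ε → 0 ≤ δ → ε + δ < 1 →
      (∀ ω, Fintype.card (R ω).Q * (V * V) ^ k ≤ 2 ^ S) →
      (∀ a : Fin V → Fin V → Bool, twoCycles a % 2 = 1 →
        2 / 3 ≤ probOut p R T (gword V a) (ValueGe Sat (1 - ε))) →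
      (∀ a : Fin V → Fin V → Bool, twoCycles a % 2 = 0 →
        2 / 3 ≤ probOut p R T (gword V a) (ValueLe Sat δ)) →
      (1 - ε - δ) ^ 2 * V ^ 6 ≤ 1800000000 * (k * (S + 1) * (k * T + V ^ 2) ^ 2)) ∧
    (∀ V : ℕ, 0 < V → ∃ (U W : Type) (_ : Fintype U) (_ : Fintype W)
      (R : Transducer Bool (Edge U W 4) (V * V) 1),
      Fintype.card U = V ^ 2 + 1 ∧ Fintype.card W = 2 * V ^ 2 + 2 ∧ Fintype.card R.Q = 1 ∧
      (∀ x t, (R.output (V * V) x t).length ≤ 6) ∧
      ∀ a : Fin V → Fin V → Bool,
        (twoCycles a % 2 = 1 → ValueGe Sat 1 (R.output (V * V) (gword V a))) ∧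
        (twoCycles a % 2 = 0 → ∀ l, good Sat (R.output (V * V) (gword V a)) l <
          total (R.output (V * V) (gword V a)))) := by
  constructor
  · intro V k T S q U W Ω _ ε δ p R hp hp1 hV hk hε hδ hεδ hS hyes hno
    exact GapC.csp_bound Sat V k T S ε δ p hp hp1 R hV hk hε hδ hεδ hyes hno hS
  · intro V hV
    obtain ⟨R, h1, h2, h3⟩ := gap_free V hV
      (Sat (U := Fin (V * V + 1)) (W := Bool × Fin (V * V + 1)) (q := 4)) edge (by
        intro l r
        refine ⟨(fun v => code (r v).1 (r v).2, fun u => if l u = true then 1 else 0), ?_⟩
        intro c hc
        unfold CSat at hc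
        unfold Sat edge
        simp only
        rw [mp_code, hc]) (by
        intro l'
        refine ⟨fun u => decide (l'.2 u = 1), fun v => (decide (((l'.1 v : Fin 4) : ℕ) % 2 = 1),
          decide (((l'.1 v : Fin 4) : ℕ) / 2 = 1)), ?_⟩
        intro c hc
        unfold Sat edge at hc
        simp only at hc
        unfold CSat
        simp only
        rw [← hc, decide_mp])
    refine ⟨Fin (V * V + 1), Bool × Fin (V * V + 1), inferInstance, inferInstance, R, ?_, ?_, h1, h2,
      h3⟩
    · rw [Fintype.card_fin]
      ring
    · rw [Fintype.card_prod, Fintype.card_bool, Fintype.card_fin]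
      ring

end Pool.Agent.Results.MP_ec946a_lc.SlowHeadReductions
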