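import Pool.Agent.X246.ACR.Thr

/-!
# Hardness reductions to satisfiable 2-to-1 games need `Θ(√N)` thresholds for each constraint

The conjecture asks for polynomial-time reductions to the problem `Gap_q(1, δ)` for 2-to-1 games.
Here a reduction maps an input `x` with `N` bits to a list of edges with constraints, indexed by `R`
(`Y x r`, where `none` is an empty entry), and each entry of the list is an arbitrary function of `s`
threshold functions of `x`, for example of `s` linear threshold functions (halfspaces) with arbitrary
real weights, or more generally of `s` unate functions (functions which are monotone or antitone in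
each variable). The threshold functions may be different for all the entries, and their complexity is
not bounded. It is proved that reductions of this kind which show that `Gap_q(1, δ)`, or even the gap
problem with completeness `1 - ε`, is hard for `NP`, or only for parity, need `s ≥ c √N`, also if
they are randomised and correct only for slightly more than half of the inputs. Conversely,
`s = C √N` linear threshold functions with weights `1`, `-1` for each constraint are enough for a
reduction of parity that is correct for all inputs, with perfect completeness and with at most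
`2 N q` constraints.

`Correct Sat ε δ Y x` (`Pool/Agent/X246/ACR/Ac0.lean`) says that the list is not empty and that its
value is at least `1 - ε` if the number of ones of `x` is even, and at most `δ` if it is odd.

The proof of the lower bound: whenever a yes instance becomes a no instance, a fraction `1 - ε - δ` of
the entries must change; but a unate function has average sensitivity at most `√N`. For the upper
bound one takes, for signs `z` from a pairwise independent sample space, the thresholds of the number
of the indices `i` at which `x` has the value prescribed by `z`, in a window of length `O(√N)` around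
`N / 2`: for every `x`, for most `z`, this number is in the window. Entries whose window is missed
notice this and are the identity.
-/

set_option autoImplicit false

namespace Pool.Agent.Results.MP_ec946a_lc.ThresholdReductions

open Finset Pool.Agent.X246.ACR

open scoped Classical

/-- An edge `(u, v)` of a 2-to-1 game with the label set `[q]`, and its map `[q] → [q]`. -/
abbrev Edge (U V : Type) (q : ℕ) : Type :=
  U × V × {π : Fin q → Fin q // ∀ b, (univ.filter fun a => π a = b).card ≤ 2}

/-- The labeling `l` satisfies the constraint. -/
def Sat {U V : Type} {q : ℕ} (l : (U → Fin q) × (V → Fin q)) (e : Edge U V q) : Prop :=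
  e.2.2.1 (l.1 e.1) = l.2 e.2.1

/-- The list whose entry `r` is obtained by `dec r` from the values of the functions `k r j`. -/
def list {N s q : ℕ} {R U V : Type} (k : R → Fin s → (Fin N → Bool) → Bool)
    (dec : R → (Fin s → Bool) → Option (Edge U V q)) (x : Fin N → Bool) (r : R) :
    Option (Edge U V q) := dec r fun j => k r j x

/-- At least the fraction `κ` of the entries of the list is not empty. -/
def Long {R K : Type} [Fintype R] (κ : ℝ) (y : R → Option K) : Prop :=
  κ * Fintype.card R ≤ ((univ.filter fun r => y r ≠ none).card : ℝ)

theorem fiber_le {q : ℕ} (σ : Equiv.Perm (Fin q)) (b : Fin q) :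
    (univ.filter fun a => σ a = b).card ≤ 2 := by
  refine le_trans (card_le_one.2 fun a ha a' ha' => ?_) (by norm_num)
  rw [mem_filter] at ha ha'
  exact σ.injective (ha.2.trans ha'.2.symm)

/-- the edge whose constraint is a permutation -/
def perm {q : ℕ} (σ : Equiv.Perm (Fin q)) : Edge Unit Unit q := ((), (), ⟨σ, fiber_le σ⟩)

/-- The number of the true bits. -/
def cnt {s : ℕ} (v : Fin s → Bool) : ℕ := (univ.filter fun j => v j = true).card

theorem cnt_threshold (s a t : ℕ) : cnt (fun j : Fin s => decide (a + j.val ≤ t)) = min s (t + 1 - a) := by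
  unfold cnt
  simp only [decide_eq_true_eq]
  have h : (univ.filter fun j : Fin s => a + j.val ≤ t) =
      univ.filter fun j : Fin s => j.val < min s (t + 1 - a) := by
    ext j
    simp only [mem_filter, mem_univ, true_and]
    have := j.isLt
    omega
  rw [h]
  have h2 : (univ.filter fun j : Fin s => j.val < min s (t + 1 - a)) =
      (univ : Finset (Fin (min s (t + 1 - a)))).image
      (fun b => ⟨b.val, lt_of_lt_of_le b.isLt (min_le_left _ _)⟩) := by
    ext i
    simp only [mem_filter, mem_univ, true_and, mem_image]
    constructor
    · intro h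
      exact ⟨⟨i.val, h⟩, rfl⟩
    · rintro ⟨b, rfl⟩
      exact b.isLt
  rw [h2, card_image_of_injective, card_univ, Fintype.card_fin]
  intro b c hbc
  simp only [Fin.mk.injEq] at hbc
  exact Fin.ext hbc

/-- the entry: the identity, if the window is missed or the parity is even, and a shift otherwise -/
noncomputable def entry {N m q : ℕ} [NeZero q] (c : Fin N → Fin m → Bool) (a s : ℕ)
    (p : (Fin m → Bool) × Fin q) (v : Fin s → Bool) : Option (Edge Unit Unit q) :=
  some (perm (if cnt v = 0 ∨ cnt v = s then 1 else
    if Odd (a + cnt v - 1 + negs c p.1) then Equiv.addRight p.2 else 1))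

theorem upper (N s q : ℕ) (η : ℝ) (hN1 : 1 ≤ N) (hs : 3 ≤ s) (hN : N ≤ η * (s - 2) ^ 2)
    (hq : 1 ≤ q) :
    ∃ (R : Type) (_ : Fintype R) (k : R → Fin s → (Fin N → Bool) → Bool)
      (dec : R → (Fin s → Bool) → Option (Edge Unit Unit q)),
      Fintype.card R ≤ 2 * N * q ∧ (∀ r j, SignThreshold (k r j)) ∧
      ∀ x, Correct Sat 0 (1 / q + η) (list k dec) x ∧ Long 1 (list k dec x) := by
  have hq0 : NeZero q := ⟨by omega⟩
  have hqR : (0 : ℝ) < q := by exact_mod_cast hq
  obtain ⟨m, hm⟩ : ∃ m, m = Nat.clog 2 N := ⟨_, rfl⟩
  have hm1 : N ≤ 2 ^ m := by rw [hm]; exact Nat.le_pow_clog (by norm_num) N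
  have hm2 : 2 ^ m ≤ 2 * N := by
    rcases Nat.lt_or_ge 1 N with h | h
    · have h1 : 2 ^ (Nat.clog 2 N).pred < N := Nat.pow_pred_clog_lt_self (by norm_num) h
      have h2 : 0 < Nat.clog 2 N := Nat.clog_pos (by norm_num) h
      have h3 : m = (Nat.clog 2 N).pred + 1 := by
        rw [hm]
        exact (Nat.succ_pred_eq_of_pos h2).symm
      rw [h3, pow_succ]
      omega
    · have h1 : N = 1 := by omega
      rw [hm, h1]
      simp
  obtain ⟨c, hc⟩ : ∃ c : Fin N → Fin m → Bool, Function.Injective c := by
    have h1 : Fintype.card (Fin N) ≤ Fintype.card (Fin m → Bool) := by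
      rw [Fintype.card_fun, Fintype.card_bool, Fintype.card_fin, Fintype.card_fin]
      exact hm1
    obtain ⟨e⟩ := Function.Embedding.nonempty_of_card_le h1
    exact ⟨e, e.injective⟩
  -- the window
  obtain ⟨a, ha⟩ : ∃ a, a = (N - (s - 3)) / 2 := ⟨_, rfl⟩
  refine ⟨(Fin m → Bool) × Fin q, inferInstance,
    fun r j x => decide (a + j.val ≤ ones (twist c r.1 x)), entry c a s, ?_, ?_, ?_⟩
  · rw [Fintype.card_prod, Fintype.card_fun, Fintype.card_bool, Fintype.card_fin, Fintype.card_fin]
    exact Nat.mul_le_mul_right _ hm2
  · intro r j
    exact signThreshold_twist c r.1 _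
  · intro x
    obtain ⟨Y, hY⟩ : ∃ Y, Y = list (fun (r : (Fin m → Bool) × Fin q) (j : Fin s) x =>
      decide (a + j.val ≤ ones (twist c r.1 x))) (entry c a s) x := ⟨_, rfl⟩
    have hYe : ∀ r : (Fin m → Bool) × Fin q, Y r = some (perm (if min s (ones (twist c r.1 x) + 1 - a) = 0 ∨
        min s (ones (twist c r.1 x) + 1 - a) = s then 1 else
        if Odd (a + min s (ones (twist c r.1 x) + 1 - a) - 1 + negs c r.1) then
          Equiv.addRight r.2 else 1)) := by
      intro r
      rw [hY]
      unfold list entry
      rw [cnt_threshold]
    have htot : total Y = 2 ^ m * q := by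
      unfold total
      rw [filter_true_of_mem fun r _ => by rw [hYe]; simp, card_univ, Fintype.card_prod,
        Fintype.card_fun, Fintype.card_bool, Fintype.card_fin, Fintype.card_fin]
    have hpos : 0 < 2 ^ m * q := by positivity
    -- the entries in the window
    have hin : ∀ r : (Fin m → Bool) × Fin q, ¬ (min s (ones (twist c r.1 x) + 1 - a) = 0 ∨
        min s (ones (twist c r.1 x) + 1 - a) = s) →
        (Odd (a + min s (ones (twist c r.1 x) + 1 - a) - 1 + negs c r.1) ↔ Odd (ones x)) := by
      intro r hr
      rw [odd_twist c r.1 x]
      have h1 : a + min s (ones (twist c r.1 x) + 1 - a) - 1 = ones (twist c r.1 x) := by omega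
      rw [h1]
    refine ⟨⟨?_, ?_, ?_⟩, ?_⟩
    · rw [← hY, htot]
      exact hpos
    · intro hodd
      rw [← hY]
      refine ⟨(fun _ => 0, fun _ => 0), ?_⟩
      have h1 : good Sat Y (fun _ => 0, fun _ => 0) = total Y := by
        unfold good total
        congr 1
        ext r
        simp only [mem_filter, mem_univ, true_and]
        constructor
        · rintro ⟨k, hk, -⟩
          rw [hk]
          simp
        · intro _
          refine ⟨_, hYe r, ?_⟩
          unfold Sat perm
          show (if _ then (1 : Equiv.Perm (Fin q)) else if _ then Equiv.addRight r.2 else 1) 0 = 0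
          split_ifs with h2 h3
          · rfl
          · exact absurd ((hin r h2).1 h3) hodd
          · rfl
      rw [h1]
      linarith
    · intro hodd l
      rw [← hY, htot]
      have hodd' : Odd (ones x) := hodd
      obtain ⟨B, hB⟩ : ∃ B : Finset (Fin m → Bool), B = univ.filter fun z =>
        min s (ones (twist c z x) + 1 - a) = 0 ∨ min s (ones (twist c z x) + 1 - a) = s := ⟨_, rfl⟩
      -- few signs miss the window
      have h1 : (B.card : ℝ) * ((s : ℝ) - 2) ^ 2 ≤ N * 2 ^ m := by
        rw [← sum_signed c hc x, hB, card_filter]
        push_cast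
        rw [sum_mul]
        refine sum_le_sum fun z _ => ?_
        by_cases hz : min s (ones (twist c z x) + 1 - a) = 0 ∨
            min s (ones (twist c z x) + 1 - a) = s
        · rw [if_pos hz, one_mul, sum_twist]
          have h2 : 2 * ones (twist c z x) + (s - 2) ≤ N ∨ N + (s - 2) ≤ 2 * ones (twist c z x) := by
            have := ones_le (twist c z x)
            rcases hz with hz | hz
            · left; omega
            · right; omega
          have h3 : ((s - 2 : ℕ) : ℝ) = (s : ℝ) - 2 := by
            rw [Nat.cast_sub (by omega)]
            norm_num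
          rw [← h3]
          have h5 : (0 : ℝ) ≤ ((s - 2 : ℕ) : ℝ) := Nat.cast_nonneg _
          rcases h2 with h2 | h2
          · have h4 : (2 : ℝ) * ones (twist c z x) + ((s - 2 : ℕ) : ℝ) ≤ N := by exact_mod_cast h2
            nlinarith
          · have h4 : (N : ℝ) + ((s - 2 : ℕ) : ℝ) ≤ 2 * ones (twist c z x) := by exact_mod_cast h2
            nlinarith
        · rw [if_neg hz, zero_mul]
          positivity
      have h2 : (B.card : ℝ) ≤ η * 2 ^ m := by
        have h3 : (0 : ℝ) < ((s : ℝ) - 2) ^ 2 := by
          have : (3 : ℝ) ≤ s := by exact_mod_cast hs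
          have : (0 : ℝ) < (s : ℝ) - 2 := by linarith
          positivity
        have h4 : (B.card : ℝ) * ((s : ℝ) - 2) ^ 2 ≤ (η * 2 ^ m) * ((s : ℝ) - 2) ^ 2 := by
          refine h1.trans ?_
          have := mul_le_mul_of_nonneg_right hN (by positivity : (0 : ℝ) ≤ 2 ^ m)
          linarith
        exact le_of_mul_le_mul_right h4 h3
      -- the satisfied entries
      have h3 : good Sat Y l ≤ 2 ^ m + B.card * q := by
        unfold good
        have h4 : (univ.filter fun r => ∃ k, Y r = some k ∧ Sat l k) ⊆
            ((univ.filter fun r : (Fin m → Bool) × Fin q => l.1 () + r.2 = l.2 ()) ∪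
              (B ×ˢ (univ : Finset (Fin q)))) := by
          intro r hr
          simp only [mem_filter, mem_univ, true_and] at hr
          obtain ⟨k, hk, hsat⟩ := hr
          rw [mem_union, mem_filter, mem_product, hB, mem_filter]
          by_cases hz : min s (ones (twist c r.1 x) + 1 - a) = 0 ∨
              min s (ones (twist c r.1 x) + 1 - a) = s
          · exact Or.inr ⟨⟨mem_univ _, hz⟩, mem_univ _⟩
          · left
            refine ⟨mem_univ _, ?_⟩
            have h5 := hYe r
            rw [if_neg hz, if_pos ((hin r hz).2 hodd'), hk] at h5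
            have h6 := Option.some_injective _ h5
            rw [h6] at hsat
            exact hsat
        refine (card_le_card h4).trans ((card_union_le _ _).trans ?_)
        refine Nat.add_le_add ?_ ?_
        · have h5 : Set.InjOn (Prod.fst : (Fin m → Bool) × Fin q → Fin m → Bool)
              ((univ.filter fun r : (Fin m → Bool) × Fin q => l.1 () + r.2 = l.2 () :
                Finset ((Fin m → Bool) × Fin q)) : Set ((Fin m → Bool) × Fin q)) := by
            intro r hr r' hr' hrr
            rw [mem_coe, mem_filter] at hr hr'
            refine Prod.ext hrr ?_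
            exact add_left_cancel (hr.2.trans hr'.2.symm)
          rw [← card_image_of_injOn h5]
          refine (card_le_univ _).trans (le_of_eq ?_)
          rw [Fintype.card_fun, Fintype.card_bool, Fintype.card_fin]
        · rw [card_product, card_univ, Fintype.card_fin]
      have h4 : (good Sat Y l : ℝ) ≤ 2 ^ m + B.card * q := by exact_mod_cast h3
      have h5 : (B.card : ℝ) * q ≤ η * 2 ^ m * q := mul_le_mul_of_nonneg_right h2 hqR.le
      push_cast
      have h6 : (1 / (q : ℝ) + η) * (2 ^ m * q) = 2 ^ m * (1 / (q : ℝ) * q) + η * 2 ^ m * q := by ring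
      rw [h6, one_div_mul_cancel hqR.ne']
      linarith
    · unfold Long
      rw [← hY]
      have h1 : (univ.filter fun r => Y r ≠ none) = univ :=
        filter_true_of_mem fun r _ => by rw [hYe]; simp
      rw [h1, card_univ, one_mul]

/-- (1) Suppose that each entry of the list of `x` is an arbitrary function of `s` unate functions,
that for at least a fraction `1 / 2 + γ` of all pairs of an input `x` and a random choice `ω` the
list has value at least `1 - ε` if `x` is even and at most `δ` if `x` is odd, and that then at least
a fraction `κ` of its entries is not empty. Then `s ≥ 2 (1 - ε - δ) κ γ √N`.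

(2) Linear threshold functions are unate.

(3) Conversely, if `N ≤ η (s - 2) ^ 2` then there is a list of at most `2 N q` constraints, each a
function of `s` linear threshold functions with weights `1`, `-1`, which has value `1` for all even
`x` and value at most `1 / q + η` for all odd `x`. -/
theorem result :
    (∀ (N s q : ℕ) (Ω R U V : Type) [Fintype Ω] [Nonempty Ω] [Fintype R] (ε δ κ γ : ℝ)
      (k : Ω → R → Fin s → (Fin N → Bool) → Bool)
      (dec : Ω → R → (Fin s → Bool) → Option (Edge U V q)),
      (∀ ω r j, Unate (k ω r j)) → 0 ≤ ε → 0 ≤ δ → ε + δ < 1 → 0 ≤ κ → 0 < γ →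
      (1 / 2 + γ) * (2 ^ N * Fintype.card Ω) ≤ ((univ.filter fun p : Ω × (Fin N → Bool) =>
        Correct Sat ε δ (list (k p.1) (dec p.1)) p.2 ∧
          Long κ (list (k p.1) (dec p.1) p.2)).card : ℝ) →
      2 * (1 - ε - δ) * κ * γ * √N ≤ s) ∧
    (∀ (N : ℕ) (f : (Fin N → Bool) → Bool) (w : Fin N → ℝ) (θ : ℝ),
      (∀ x, f x = true ↔ θ ≤ ∑ i, if x i = true then w i else 0) → Unate f) ∧
    (∀ (N s q : ℕ) (η : ℝ), 1 ≤ N → 3 ≤ s → N ≤ η * (s - 2) ^ 2 → 1 ≤ q →
      ∃ (R : Type) (_ : Fintype R) (k : R → Fin s → (Fin N → Bool) → Bool)
        (dec : R → (Fin s → Bool) → Option (Edge Unit Unit q)),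
        Fintype.card R ≤ 2 * N * q ∧ (∀ r j, SignThreshold (k r j)) ∧
        ∀ x, Correct Sat 0 (1 / q + η) (list k dec) x ∧ Long 1 (list k dec x)) := by
  refine ⟨?_, fun N f w θ h => unate_of_threshold f w θ h, upper⟩
  intro N s q Ω R U V _ _ _ ε δ κ γ k dec hk hε hδ hεδ hκ hγ hA
  obtain ⟨ω, hω⟩ := exists_index (fun ω x => Correct Sat ε δ (list (k ω) (dec ω)) x ∧
    Long κ (list (k ω) (dec ω) x)) γ (by convert hA)
  refine unate_avg (sat := Sat) hε hδ hεδ hκ hγ (k ω) (hk ω) (dec ω) (hω.trans (le_of_eq ?_))
  congr 2
  ext x
  simp only [mem_filter]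
  exact Iff.rfl

end Pool.Agent.Results.MP_ec946a_lc.ThresholdReductions
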